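import Pool.Agent.H964.LF.Stm

/-!
# One-dimensional Prekopa-Leindler inequality (midpoints)
-/

set_option autoImplicit false

open MeasureTheory Set
open scoped ENNReal

namespace Pool.Agent.H736.LF.PL

/-- Half of a set, shifted: the measure. -/
theorem vol_half (X : Set ℝ) (b : ℝ) :
    2 * volume ((fun z : ℝ => 2 * z + b) ⁻¹' X) = volume X := by
  have h1 : (fun z : ℝ => 2 * z + b) ⁻¹' X = (fun z : ℝ => 2 * z) ⁻¹' ((fun w : ℝ => w + b) ⁻¹' X) := rfl
  rw [h1, Real.volume_preimage_mul_left (by norm_num : (2 : ℝ) ≠ 0), measure_preimage_add_right]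
  rw [← mul_assoc]
  have h2 : (2 : ℝ≥0∞) * ENNReal.ofReal |(2 : ℝ)⁻¹| = 1 := by
    rw [abs_of_pos (by norm_num : (0 : ℝ) < 2⁻¹)]
    rw [show (2 : ℝ≥0∞) = ENNReal.ofReal 2 by simp, ← ENNReal.ofReal_mul (by norm_num)]
    norm_num
  rw [h2, one_mul]

/-- The one-dimensional Brunn-Minkowski inequality for compact sets. -/
theorem bm_compact {X Y Z : Set ℝ} (hX : IsCompact X) (hY : IsCompact Y) (hX0 : X.Nonempty)
    (hY0 : Y.Nonempty) (h : ∀ x ∈ X, ∀ y ∈ Y, (x + y) / 2 ∈ Z) :
    volume X + volume Y ≤ 2 * volume Z := by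
  obtain ⟨a, haX, ha⟩ := hX.exists_isGreatest hX0
  obtain ⟨b, hbY, hb⟩ := hY.exists_isLeast hY0
  set U : Set ℝ := (fun z : ℝ => 2 * z + (-b)) ⁻¹' X with hU
  set V : Set ℝ := (fun z : ℝ => 2 * z + (-a)) ⁻¹' Y with hV
  have hVm : MeasurableSet V := by
    have : Measurable (fun z : ℝ => 2 * z + (-a)) := by fun_prop
    exact this hY.measurableSet
  have hUZ : U ⊆ Z := by
    intro z hz
    have := h _ hz b hbY
    have e : (2 * z + -b + b) / 2 = z := by ring
    rwa [e] at this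
  have hVZ : V ⊆ Z := by
    intro z hz
    have := h a haX _ hz
    have e : (a + (2 * z + -a)) / 2 = z := by ring
    rwa [e] at this
  have hUV : U ∩ V ⊆ {(a + b) / 2} := by
    rintro z ⟨hz1, hz2⟩
    have h1 : 2 * z + -b ≤ a := ha hz1
    have h2 : b ≤ 2 * z + -a := hb hz2
    simp only [mem_singleton_iff]
    linarith
  have h0 : volume (U ∩ V) = 0 := measure_mono_null hUV (by simp)
  have h3 : volume (U ∪ V) + volume (U ∩ V) = volume U + volume V :=
    measure_union_add_inter U hVm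
  rw [h0, add_zero] at h3
  calc volume X + volume Y = 2 * volume U + 2 * volume V := by rw [hU, hV, vol_half, vol_half]
    _ = 2 * volume (U ∪ V) := by rw [h3, mul_add]
    _ ≤ 2 * volume Z := by
      gcongr
      exact union_subset hUZ hVZ

/-- The one-dimensional Brunn-Minkowski inequality. -/
theorem bm {X Y Z : Set ℝ} (hX : MeasurableSet X) (hY : MeasurableSet Y) (hX0 : X.Nonempty)
    (hY0 : Y.Nonempty) (h : ∀ x ∈ X, ∀ y ∈ Y, (x + y) / 2 ∈ Z) :
    volume X + volume Y ≤ 2 * volume Z := by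
  obtain ⟨x0, hx0⟩ := hX0
  obtain ⟨y0, hy0⟩ := hY0
  -- first step
  have step1 : ∀ L : Set ℝ, IsCompact L → L ⊆ Y → L.Nonempty →
      volume X + volume L ≤ 2 * volume Z := by
    intro L hL hLY hL0
    have hb : volume L ≤ 2 * volume Z := by
      have := bm_compact (X := {x0}) (Z := Z) isCompact_singleton hL (singleton_nonempty _) hL0
        (fun x hx y hy => h x (by rw [mem_singleton_iff.1 hx]; exact hx0) y (hLY hy))
      simpa using this
    have h1 : volume X ≤ 2 * volume Z - volume L := by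
      rw [hX.measure_eq_iSup_isCompact]
      refine iSup_le fun K => iSup_le fun hKX => iSup_le fun hK => ?_
      rcases K.eq_empty_or_nonempty with rfl | hK0
      · simp
      · exact ENNReal.le_sub_of_add_le_right hL.measure_lt_top.ne
          (bm_compact hK hL hK0 hL0 (fun x hx y hy => h x (hKX hx) y (hLY hy)))
    calc volume X + volume L ≤ (2 * volume Z - volume L) + volume L := by gcongr
      _ = 2 * volume Z := tsub_add_cancel_of_le hb
  have hXZ : volume X ≤ 2 * volume Z := by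
    have := step1 {y0} isCompact_singleton (singleton_subset_iff.2 hy0) (singleton_nonempty _)
    simpa using this
  by_cases hfin : volume X = ∞
  · have : 2 * volume Z = ∞ := by
      rw [hfin] at hXZ
      exact top_le_iff.1 hXZ
    rw [this]
    exact le_top
  · have h1 : volume Y ≤ 2 * volume Z - volume X := by
      rw [hY.measure_eq_iSup_isCompact]
      refine iSup_le fun K => iSup_le fun hKY => iSup_le fun hK => ?_
      rcases K.eq_empty_or_nonempty with rfl | hK0
      · simp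
      · refine ENNReal.le_sub_of_add_le_right hfin ?_
        rw [add_comm]
        exact step1 K hK hKY hK0
    calc volume X + volume Y ≤ volume X + (2 * volume Z - volume X) := by gcongr
      _ = 2 * volume Z := add_tsub_cancel_of_le hXZ

/-- The normalised case. -/
theorem norm_case {F G K : ℝ → ℝ} (hF : Measurable F) (hG : Measurable G) (hK : Measurable K)
    (hF0 : ∀ s, 0 ≤ F s) (hG0 : ∀ s, 0 ≤ G s) (hK0 : ∀ s, 0 ≤ K s) (hF1 : ∀ s, F s ≤ 1)
    (hG1 : ∀ s, G s ≤ 1) (hFs : ∀ t < 1, ∃ s, t < F s) (hGs : ∀ t < 1, ∃ s, t < G s)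
    (h : ∀ t, 0 < t → t < 1 → ∀ x y, t < F x → t < G y → t < K ((x + y) / 2)) :
    (∫⁻ s, ENNReal.ofReal (F s)) + (∫⁻ s, ENNReal.ofReal (G s)) ≤
      2 * ∫⁻ s, ENNReal.ofReal (K s) := by
  rw [lintegral_eq_lintegral_meas_lt volume (Filter.Eventually.of_forall hF0) hF.aemeasurable,
    lintegral_eq_lintegral_meas_lt volume (Filter.Eventually.of_forall hG0) hG.aemeasurable,
    lintegral_eq_lintegral_meas_lt volume (Filter.Eventually.of_forall hK0) hK.aemeasurable]
  have m1 : Measurable (fun t : ℝ => volume {a : ℝ | t < F a}) :=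
    Antitone.measurable (fun s t hst => measure_mono (fun a ha => lt_of_le_of_lt hst ha))
  have m3 : Measurable (fun t : ℝ => volume {a : ℝ | t < K a}) :=
    Antitone.measurable (fun s t hst => measure_mono (fun a ha => lt_of_le_of_lt hst ha))
  rw [← lintegral_add_left m1, ← lintegral_const_mul _ m3]
  refine setLIntegral_mono' measurableSet_Ioi ?_
  intro t ht
  have ht0 : 0 < t := ht
  rcases lt_or_ge t 1 with ht1 | ht1
  · exact bm (measurableSet_lt measurable_const hF) (measurableSet_lt measurable_const hG)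
      (hFs t ht1) (hGs t ht1) (fun x hx y hy => h t ht0 ht1 x y hx hy)
  · have e1 : {a : ℝ | t < F a} = ∅ := by
      ext a
      simp only [Set.mem_ofPred_eq, mem_empty_iff_false, iff_false, not_lt]
      exact le_trans (hF1 a) ht1
    have e2 : {a : ℝ | t < G a} = ∅ := by
      ext a
      simp only [Set.mem_ofPred_eq, mem_empty_iff_false, iff_false, not_lt]
      exact le_trans (hG1 a) ht1
    rw [e1, e2]
    simp

theorem amgm (a b : ℝ≥0∞) : 4 * (a * b) ≤ (a + b) ^ 2 := by
  rcases eq_or_ne a ∞ with rfl | ha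
  · simp
  rcases eq_or_ne b ∞ with rfl | hb
  · simp
  lift a to NNReal using ha
  lift b to NNReal using hb
  have : (4 : NNReal) * (a * b) ≤ (a + b) ^ 2 := by
    rw [← NNReal.coe_le_coe]
    push_cast
    nlinarith [sq_nonneg ((a : ℝ) - b)]
  exact_mod_cast this

/-- The bounded case. -/
theorem bdd_case {f g h : ℝ → ℝ≥0∞} (hf : Measurable f) (hg : Measurable g) (hh : Measurable h)
    (hfg : ∀ s t : ℝ, f s * g t ≤ h ((s + t) / 2) ^ 2) (hfb : (⨆ s, f s) ≠ ∞)
    (hgb : (⨆ s, g s) ≠ ∞) : (∫⁻ s, f s) * (∫⁻ t, g t) ≤ (∫⁻ s, h s) ^ 2 := by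
  set A := ⨆ s, f s with hA
  set B := ⨆ s, g s with hB
  have hfA : ∀ s, f s ≤ A := fun s => le_iSup f s
  have hgB : ∀ s, g s ≤ B := fun s => le_iSup g s
  by_cases hA0 : A = 0
  · have : ∀ s, f s = 0 := fun s => le_antisymm (by rw [← hA0]; exact hfA s) bot_le
    simp [this]
  by_cases hB0 : B = 0
  · have : ∀ s, g s = 0 := fun s => le_antisymm (by rw [← hB0]; exact hgB s) bot_le
    simp [this]
  -- real normalisations
  have hAr : 0 < A.toReal := ENNReal.toReal_pos hA0 hfb
  have hBr : 0 < B.toReal := ENNReal.toReal_pos hB0 hgb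
  have hft : ∀ s, f s ≠ ∞ := fun s => (lt_of_le_of_lt (hfA s) (lt_top_iff_ne_top.2 hfb)).ne
  have hgt : ∀ s, g s ≠ ∞ := fun s => (lt_of_le_of_lt (hgB s) (lt_top_iff_ne_top.2 hgb)).ne
  set r : ℝ := Real.sqrt (A.toReal * B.toReal) with hr
  have hr0 : 0 < r := Real.sqrt_pos.2 (by positivity)
  have hrr : r * r = A.toReal * B.toReal := Real.mul_self_sqrt (by positivity)
  set F : ℝ → ℝ := fun s => (f s).toReal / A.toReal with hF
  set G : ℝ → ℝ := fun s => (g s).toReal / B.toReal with hG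
  set K : ℝ → ℝ := fun s => (min (h s) (ENNReal.ofReal r)).toReal / r with hK
  have hKt : ∀ s, min (h s) (ENNReal.ofReal r) ≠ ∞ := fun s =>
    (lt_of_le_of_lt (min_le_right _ _) ENNReal.ofReal_lt_top).ne
  have key := norm_case (F := F) (G := G) (K := K)
    (hf.ennreal_toReal.div_const _) (hg.ennreal_toReal.div_const _)
    ((hh.min measurable_const).ennreal_toReal.div_const _)
    (fun s => by positivity) (fun s => by positivity) (fun s => by positivity)
    (fun s => by
      rw [hF]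
      simp only
      rw [div_le_one hAr]
      exact ENNReal.toReal_mono hfb (hfA s))
    (fun s => by
      rw [hG]
      simp only
      rw [div_le_one hBr]
      exact ENNReal.toReal_mono hgb (hgB s))
    (fun t ht => by
      rcases lt_or_ge t 0 with h0 | h0
      · exact ⟨0, lt_of_lt_of_le h0 (by positivity)⟩
      have h1 : ENNReal.ofReal (t * A.toReal) < A := by
        rw [ENNReal.ofReal_lt_iff_lt_toReal (by positivity) hfb]
        nlinarith
      obtain ⟨s, hs⟩ := lt_iSup_iff.1 (hA ▸ h1)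
      refine ⟨s, ?_⟩
      rw [hF]
      simp only
      rw [lt_div_iff₀ hAr]
      rwa [ENNReal.ofReal_lt_iff_lt_toReal (by positivity) (hft s)] at hs)
    (fun t ht => by
      rcases lt_or_ge t 0 with h0 | h0
      · exact ⟨0, lt_of_lt_of_le h0 (by positivity)⟩
      have h1 : ENNReal.ofReal (t * B.toReal) < B := by
        rw [ENNReal.ofReal_lt_iff_lt_toReal (by positivity) hgb]
        nlinarith
      obtain ⟨s, hs⟩ := lt_iSup_iff.1 (hB ▸ h1)
      refine ⟨s, ?_⟩
      rw [hG]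
      simp only
      rw [lt_div_iff₀ hBr]
      rwa [ENNReal.ofReal_lt_iff_lt_toReal (by positivity) (hgt s)] at hs)
    (fun t ht0 ht1 x y hx hy => by
      rw [hF] at hx
      rw [hG] at hy
      simp only at hx hy
      rw [lt_div_iff₀ hAr] at hx
      rw [lt_div_iff₀ hBr] at hy
      rw [hK]
      simp only
      rw [lt_div_iff₀ hr0, ← ENNReal.ofReal_lt_iff_lt_toReal (by positivity) (hKt _)]
      rw [lt_min_iff]
      constructor
      · by_contra hcon
        rw [not_lt] at hcon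
        have h1 := hfg x y
        have h2 : h ((x + y) / 2) ^ 2 ≤ ENNReal.ofReal (t * r) ^ 2 := by gcongr
        have h3 := le_trans h1 h2
        rw [← ENNReal.ofReal_toReal (hft x), ← ENNReal.ofReal_toReal (hgt y),
          ← ENNReal.ofReal_mul (by positivity), ← ENNReal.ofReal_pow (by positivity),
          ENNReal.ofReal_le_ofReal_iff (by positivity)] at h3
        have h4 : (t * A.toReal) * (t * B.toReal) < (f x).toReal * (g y).toReal := by
          apply mul_lt_mul'' hx hy (by positivity) (by positivity)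
        have h5 : (t * r) ^ 2 = (t * A.toReal) * (t * B.toReal) := by
          rw [mul_pow, sq r, hrr]
          ring
        linarith
      · apply (ENNReal.ofReal_lt_ofReal_iff hr0).2
        nlinarith)
  -- translate back
  have iF : ∫⁻ s, ENNReal.ofReal (F s) = A⁻¹ * ∫⁻ s, f s := by
    rw [← lintegral_const_mul _ hf]
    refine lintegral_congr fun s => ?_
    rw [hF]
    simp only
    rw [ENNReal.ofReal_div_of_pos hAr, ENNReal.ofReal_toReal (hft s), ENNReal.ofReal_toReal hfb,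
      ENNReal.div_eq_inv_mul]
  have iG : ∫⁻ s, ENNReal.ofReal (G s) = B⁻¹ * ∫⁻ s, g s := by
    rw [← lintegral_const_mul _ hg]
    refine lintegral_congr fun s => ?_
    rw [hG]
    simp only
    rw [ENNReal.ofReal_div_of_pos hBr, ENNReal.ofReal_toReal (hgt s), ENNReal.ofReal_toReal hgb,
      ENNReal.div_eq_inv_mul]
  have iK : ∫⁻ s, ENNReal.ofReal (K s) ≤ (ENNReal.ofReal r)⁻¹ * ∫⁻ s, h s := by
    rw [← lintegral_const_mul _ hh]
    refine lintegral_mono fun s => ?_
    rw [hK]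
    simp only
    rw [ENNReal.ofReal_div_of_pos hr0, ENNReal.ofReal_toReal (hKt s), ENNReal.div_eq_inv_mul]
    gcongr
    exact min_le_left _ _
  rw [iF, iG] at key
  have key2 : A⁻¹ * (∫⁻ s, f s) + B⁻¹ * (∫⁻ s, g s) ≤ 2 * ((ENNReal.ofReal r)⁻¹ * ∫⁻ s, h s) :=
    key.trans (by gcongr)
  have h5 : 4 * ((A⁻¹ * (∫⁻ s, f s)) * (B⁻¹ * (∫⁻ s, g s))) ≤
      4 * (((ENNReal.ofReal r)⁻¹ * ∫⁻ s, h s) ^ 2) := by
    calc 4 * ((A⁻¹ * (∫⁻ s, f s)) * (B⁻¹ * (∫⁻ s, g s)))
        ≤ (A⁻¹ * (∫⁻ s, f s) + B⁻¹ * (∫⁻ s, g s)) ^ 2 := amgm _ _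
      _ ≤ (2 * ((ENNReal.ofReal r)⁻¹ * ∫⁻ s, h s)) ^ 2 := by gcongr
      _ = _ := by
        rw [mul_pow]
        norm_num
  have h6 : (A⁻¹ * (∫⁻ s, f s)) * (B⁻¹ * (∫⁻ s, g s)) ≤ ((ENNReal.ofReal r)⁻¹ * ∫⁻ s, h s) ^ 2 := by
    have := (ENNReal.mul_le_mul_iff_right (a := 4) (by norm_num) (by norm_num)).1 h5
    exact this
  have hAB : A * B = ENNReal.ofReal r ^ 2 := by
    rw [sq, ← ENNReal.ofReal_mul hr0.le, hrr, ENNReal.ofReal_mul hAr.le,
      ENNReal.ofReal_toReal hfb, ENNReal.ofReal_toReal hgb]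
  have hAA : A * A⁻¹ = 1 := ENNReal.mul_inv_cancel hA0 hfb
  have hBB : B * B⁻¹ = 1 := ENNReal.mul_inv_cancel hB0 hgb
  have hRR : ENNReal.ofReal r * (ENNReal.ofReal r)⁻¹ = 1 :=
    ENNReal.mul_inv_cancel (by simpa using hr0) ENNReal.ofReal_ne_top
  calc (∫⁻ s, f s) * (∫⁻ t, g t) = (A * A⁻¹) * (B * B⁻¹) * ((∫⁻ s, f s) * (∫⁻ t, g t)) := by
        rw [hAA, hBB]
        simp
    _ = (A * B) * ((A⁻¹ * (∫⁻ s, f s)) * (B⁻¹ * (∫⁻ s, g s))) := by ring
    _ ≤ (A * B) * (((ENNReal.ofReal r)⁻¹ * ∫⁻ s, h s) ^ 2) := by gcongr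
    _ = ((ENNReal.ofReal r * (ENNReal.ofReal r)⁻¹) * ∫⁻ s, h s) ^ 2 := by
        rw [hAB]
        ring
    _ = (∫⁻ s, h s) ^ 2 := by rw [hRR, one_mul]

end Pool.Agent.H736.LF.PL

namespace Pool.Agent.H736.LF

open Pool.Agent.H964.LF PL

theorem t_PL1 : S_PL1 := by
  intro f g h hf hg hh hfg
  -- truncations
  have hfn : ∀ n : ℕ, Measurable (fun s => min (f s) (n : ℝ≥0∞)) := fun n => hf.min measurable_const
  have hgn : ∀ n : ℕ, Measurable (fun s => min (g s) (n : ℝ≥0∞)) := fun n => hg.min measurable_const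
  have key : ∀ n m : ℕ, (∫⁻ s, min (f s) (n : ℝ≥0∞)) * (∫⁻ s, min (g s) (m : ℝ≥0∞)) ≤
      (∫⁻ s, h s) ^ 2 := by
    intro n m
    refine bdd_case (hfn n) (hgn m) hh ?_ ?_ ?_
    · intro s t
      exact le_trans (mul_le_mul' (min_le_left _ _) (min_le_left _ _)) (hfg s t)
    · exact (lt_of_le_of_lt (iSup_le fun s => min_le_right _ _) (ENNReal.natCast_lt_top n)).ne
    · exact (lt_of_le_of_lt (iSup_le fun s => min_le_right _ _) (ENNReal.natCast_lt_top m)).ne
  have sup_min : ∀ x : ℝ≥0∞, ⨆ n : ℕ, min x (n : ℝ≥0∞) = x := by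
    intro x
    apply le_antisymm (iSup_le fun n => min_le_left _ _)
    rcases eq_or_ne x ∞ with rfl | hx
    · simp [ENNReal.iSup_natCast]
    · obtain ⟨n, hn⟩ := ENNReal.exists_nat_gt hx
      exact le_iSup_of_le n (le_min le_rfl hn.le)
  have cf : ∫⁻ s, f s = ⨆ n : ℕ, ∫⁻ s, min (f s) (n : ℝ≥0∞) := by
    rw [← lintegral_iSup hfn]
    · exact lintegral_congr fun s => (sup_min (f s)).symm
    · intro n m hnm s
      exact min_le_min le_rfl (by exact_mod_cast hnm)
  have cg : ∫⁻ s, g s = ⨆ n : ℕ, ∫⁻ s, min (g s) (n : ℝ≥0∞) := by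
    rw [← lintegral_iSup hgn]
    · exact lintegral_congr fun s => (sup_min (g s)).symm
    · intro n m hnm s
      exact min_le_min le_rfl (by exact_mod_cast hnm)
  rw [cf, cg, ENNReal.iSup_mul]
  refine iSup_le fun n => ?_
  rw [ENNReal.mul_iSup]
  exact iSup_le fun m => key n m

end Pool.Agent.H736.LF
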